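import Pool.Agent.Helper162.Arc.PA

/-!
# Products of two continua need not be `λ`-connected

A hereditarily decomposable continuum `K` has no continuous image which is a nondegenerate
indecomposable continuum: a subcontinuum of `K` which is minimal among those mapped onto the image
is indecomposable.  Hence both projections of a hereditarily decomposable subcontinuum of `X × Y`
are decomposable or degenerate.  If `X` is the pseudo-arc, all nondegenerate subcontinua of `X` are
indecomposable, and two points of `X × Y` with different first coordinates do not lie in a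
hereditarily decomposable subcontinuum.
-/

set_option autoImplicit false

open Set Topology

universe u v

namespace Pool.Agent.Results.MP_3d59a4_gt.NotLambdaConnected

/-- A subcontinuum: a (nonempty) compact connected subset. -/
def IsSubcontinuum {X : Type u} [TopologicalSpace X] (K : Set X) : Prop :=
  IsCompact K ∧ IsConnected K

/-- `K` is decomposable: it is the union of two proper subcontinua. -/
def IsDecomposable {X : Type u} [TopologicalSpace X] (K : Set X) : Prop :=
  ∃ A B : Set X, IsSubcontinuum A ∧ IsSubcontinuum B ∧ A ≠ K ∧ B ≠ K ∧ A ∪ B = K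

/-- `K` is hereditarily decomposable: every nondegenerate subcontinuum of `K` is decomposable. -/
def IsHereditarilyDecomposable {X : Type u} [TopologicalSpace X] (K : Set X) : Prop :=
  ∀ L ⊆ K, IsSubcontinuum L → L.Nontrivial → IsDecomposable L

/-- Some hereditarily decomposable subcontinuum contains the points `p` and `q`. -/
def Joined {X : Type u} [TopologicalSpace X] (p q : X) : Prop :=
  ∃ K : Set X, IsSubcontinuum K ∧ IsHereditarilyDecomposable K ∧ p ∈ K ∧ q ∈ K

/-- `X` is `λ`-connected: any two points lie in a hereditarily decomposable subcontinuum. -/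
def LambdaConnected (X : Type u) [TopologicalSpace X] : Prop :=
  ∀ p q : X, Joined p q

/-- The intersection of a chain of compact connected sets is connected. -/
theorem chain_inter {X : Type u} [TopologicalSpace X] [T2Space X] {c : Set (Set X)}
    (hc : IsChain (· ⊆ ·) c) (hne : c.Nonempty) (hs : ∀ s ∈ c, IsSubcontinuum s) :
    IsSubcontinuum (⋂₀ c) := by
  have : Nonempty c := hne.to_subtype
  have hdir : Directed (· ⊇ ·) (fun s : c => (s : Set X)) := by
    intro s t
    rcases hc.total s.2 t.2 with h | h
    · exact ⟨s, subset_rfl, h⟩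
    · exact ⟨t, h, subset_rfl⟩
  have hcl : ∀ s : c, IsClosed (s : Set X) := fun s => (hs s s.2).1.isClosed
  obtain ⟨s0, hs0⟩ := hne
  have hcpt : IsCompact (⋂₀ c) :=
    (hs s0 hs0).1.of_isClosed_subset (isClosed_sInter fun s h => (hs s h).1.isClosed)
      (sInter_subset_of_mem hs0)
  refine ⟨hcpt, ?_, ?_⟩
  · have := IsCompact.nonempty_iInter_of_directed_nonempty_isCompact_isClosed
      (fun s : c => (s : Set X)) hdir (fun s => (hs s s.2).2.nonempty)
      (fun s => (hs s s.2).1) hcl
    rwa [← sInter_eq_iInter] at this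
  · rw [isPreconnected_iff_subset_of_fully_disjoint_closed hcpt.isClosed]
    intro a b ha hb hab habd
    -- separate the two compact pieces
    have hA : IsCompact (⋂₀ c ∩ a) := hcpt.inter_right ha
    have hB : IsCompact (⋂₀ c ∩ b) := hcpt.inter_right hb
    have hdisj : Disjoint (⋂₀ c ∩ a) (⋂₀ c ∩ b) :=
      habd.mono inter_subset_right inter_subset_right
    obtain ⟨u, v, hu, hv, hau, hbv, huv⟩ := SeparatedNhds.of_isCompact_isCompact hA hB hdisj
    obtain ⟨s, hs'⟩ : ∃ s : c, (s : Set X) ⊆ u ∪ v := by
      by_contra hcon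
      push Not at hcon
      have hne2 : ∀ s : c, ((s : Set X) ∩ (u ∪ v)ᶜ).Nonempty := by
        intro s
        obtain ⟨x, hx, hx'⟩ := Set.not_subset.1 (hcon s)
        exact ⟨x, hx, hx'⟩
      have := IsCompact.nonempty_iInter_of_directed_nonempty_isCompact_isClosed
        (fun s : c => (s : Set X) ∩ (u ∪ v)ᶜ)
        (by
          intro s t
          obtain ⟨r, h1, h2⟩ := hdir s t
          exact ⟨r, inter_subset_inter_left _ h1, inter_subset_inter_left _ h2⟩)
        hne2
        (fun s => (hs s s.2).1.inter_right (hu.union hv).isClosed_compl)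
        (fun s => (hcl s).inter (hu.union hv).isClosed_compl)
      obtain ⟨x, hx⟩ := this
      have hx1 : x ∈ ⋂₀ c := mem_sInter.2 fun s h => (mem_iInter.1 hx ⟨s, h⟩).1
      have hx2 : x ∉ u ∪ v := (mem_iInter.1 hx ⟨s0, hs0⟩).2
      apply hx2
      rcases hab hx1 with h | h
      · exact Or.inl (hau ⟨hx1, h⟩)
      · exact Or.inr (hbv ⟨hx1, h⟩)
    have hpre := (hs s s.2).2.isPreconnected
    have hsub : ⋂₀ c ⊆ s := sInter_subset_of_mem s.2
    rcases hpre.subset_or_subset hu hv huv hs' with h | h
    · left
      intro x hx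
      rcases hab hx with h1 | h1
      · exact h1
      · exact absurd (hbv ⟨hx, h1⟩) (fun h2 => Set.disjoint_left.1 huv (h (hsub hx)) h2)
    · right
      intro x hx
      rcases hab hx with h1 | h1
      · exact absurd (hau ⟨hx, h1⟩) (fun h2 => Set.disjoint_left.1 huv h2 (h (hsub hx)))
      · exact h1

/-- A hereditarily decomposable continuum has no nondegenerate indecomposable continuous image. -/
theorem image_decomposable {X : Type u} {Y : Type v} [TopologicalSpace X] [T2Space X]
    [TopologicalSpace Y] [T2Space Y] {f : X → Y} (hf : Continuous f) {K : Set X}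
    (hK : IsSubcontinuum K) (hd : IsHereditarilyDecomposable K) (hn : (f '' K).Nontrivial) :
    IsDecomposable (f '' K) := by
  -- a minimal subcontinuum with the same image
  obtain ⟨M, hMK, hM⟩ : ∃ M ⊆ K, Minimal
      (fun C : Set X => IsSubcontinuum C ∧ C ⊆ K ∧ f '' C = f '' K) M := by
    refine zorn_superset_nonempty {C : Set X | IsSubcontinuum C ∧ C ⊆ K ∧ f '' C = f '' K}
      ?_ K ⟨hK, subset_rfl, rfl⟩
    intro c hcS hc hne
    have hsub : ∀ s ∈ c, IsSubcontinuum s := fun s h => (hcS h).1
    refine ⟨⋂₀ c, ⟨chain_inter hc hne hsub, ?_, ?_⟩, fun s h => sInter_subset_of_mem h⟩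
    · obtain ⟨s, hs⟩ := hne
      exact (sInter_subset_of_mem hs).trans (hcS hs).2.1
    · apply Subset.antisymm
      · obtain ⟨s, hs⟩ := hne
        exact image_mono ((sInter_subset_of_mem hs).trans (hcS hs).2.1)
      · intro y hy
        have : Nonempty c := hne.to_subtype
        have hdir : Directed (· ⊇ ·) (fun s : c => (s : Set X) ∩ f ⁻¹' {y}) := by
          intro s t
          rcases hc.total s.2 t.2 with h | h
          · exact ⟨s, subset_rfl, inter_subset_inter_left _ h⟩
          · exact ⟨t, inter_subset_inter_left _ h, subset_rfl⟩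
        have hcl : IsClosed (f ⁻¹' {y}) := isClosed_singleton.preimage hf
        have h := IsCompact.nonempty_iInter_of_directed_nonempty_isCompact_isClosed
          (fun s : c => (s : Set X) ∩ f ⁻¹' {y}) hdir
          (by
            rintro ⟨s, hs⟩
            have hy' : y ∈ f '' s := by rw [(hcS hs).2.2]; exact hy
            obtain ⟨x, hx, hxy⟩ := hy'
            exact ⟨x, hx, hxy⟩)
          (fun s => (hsub s s.2).1.inter_right hcl)
          (fun s => (hsub s s.2).1.isClosed.inter hcl)
        obtain ⟨x, hx⟩ := h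
        obtain ⟨s0, hs0⟩ := hne
        exact ⟨x, mem_sInter.2 fun s h => (mem_iInter.1 hx ⟨s, h⟩).1,
          (mem_iInter.1 hx ⟨s0, hs0⟩).2⟩
  obtain ⟨⟨hM1, hM2, hM3⟩, hmin⟩ := hM
  have hMn : M.Nontrivial := by
    rw [← hM3] at hn
    obtain ⟨_, ⟨x, hx, rfl⟩, _, ⟨y, hy, rfl⟩, hxy⟩ := hn
    exact ⟨x, hx, y, hy, fun h => hxy (congrArg f h)⟩
  obtain ⟨A, B, hA, hB, hAM, hBM, hAB⟩ := hd M hM2 hM1 hMn
  have hAsub : A ⊆ M := hAB ▸ subset_union_left
  have hBsub : B ⊆ M := hAB ▸ subset_union_right
  refine ⟨f '' A, f '' B, ⟨hA.1.image hf, hA.2.image f hf.continuousOn⟩,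
    ⟨hB.1.image hf, hB.2.image f hf.continuousOn⟩, ?_, ?_, ?_⟩
  · intro h
    exact hAM (Subset.antisymm hAsub (hmin ⟨hA, hAsub.trans hM2, h⟩ hAsub))
  · intro h
    exact hBM (Subset.antisymm hBsub (hmin ⟨hB, hBsub.trans hM2, h⟩ hBsub))
  · rw [← image_union, hAB, hM3]

/-- **Negative answer to Q1.**
(1) If `X`, `Y` are Hausdorff spaces and `K` is a hereditarily decomposable subcontinuum of
`X × Y`, then each of the two projections of `K` is decomposable or has only one point.
(2) There is a nondegenerate (metric) continuum `X` (the pseudo-arc) such that for every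
Hausdorff space `Y`, in particular for every continuum `Y`, two points of `X × Y` which lie in a
common hereditarily decomposable subcontinuum of `X × Y` have the same first coordinate; for every
nonempty `Y` the product `X × Y` is not `λ`-connected. In particular, for the nondegenerate
continua `X` and `X` no two distinct points of `X × X` lie in a common hereditarily decomposable
subcontinuum. -/
theorem result :
    (∀ (X : Type u) (Y : Type v) [TopologicalSpace X] [TopologicalSpace Y] [T2Space X] [T2Space Y]
      (K : Set (X × Y)), IsSubcontinuum K → IsHereditarilyDecomposable K →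
      (IsDecomposable (Prod.fst '' K) ∨ (Prod.fst '' K).Subsingleton) ∧
      (IsDecomposable (Prod.snd '' K) ∨ (Prod.snd '' K).Subsingleton)) ∧
    ∃ (X : Type) (_ : MetricSpace X), CompactSpace X ∧ ConnectedSpace X ∧ Nontrivial X ∧
      (∀ (Y : Type v) [TopologicalSpace Y] [T2Space Y],
        (∀ p q : X × Y, Joined p q → p.1 = q.1) ∧
        (Nonempty Y → ¬ LambdaConnected (X × Y))) ∧
      (∀ p q : X × X, p ≠ q → ¬ Joined p q) ∧
      ¬ LambdaConnected (X × X) := by
  have key : ∀ (X : Type u) (Y : Type v) [TopologicalSpace X] [TopologicalSpace Y] [T2Space X]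
      [T2Space Y] (K : Set (X × Y)), IsSubcontinuum K → IsHereditarilyDecomposable K →
      (IsDecomposable (Prod.fst '' K) ∨ (Prod.fst '' K).Subsingleton) ∧
      (IsDecomposable (Prod.snd '' K) ∨ (Prod.snd '' K).Subsingleton) := by
    intro X Y _ _ _ _ K hK hd
    constructor
    · rcases Set.subsingleton_or_nontrivial (Prod.fst '' K) with h | h
      · exact Or.inr h
      · exact Or.inl (image_decomposable continuous_fst hK hd h)
    · rcases Set.subsingleton_or_nontrivial (Prod.snd '' K) with h | h
      · exact Or.inr h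
      · exact Or.inl (image_decomposable continuous_snd hK hd h)
  refine ⟨key, Pool.Agent.Helper162.Arc.PA,
    TopologicalSpace.metrizableSpaceMetric Pool.Agent.Helper162.Arc.PA, inferInstance,
    inferInstance, inferInstance, ?_⟩
  have hi : ∀ C : Set Pool.Agent.Helper162.Arc.PA, IsSubcontinuum C → ¬ IsDecomposable C := by
    rintro C ⟨hC1, hC2⟩ ⟨A, B, hA, hB, hAK, hBK, hAB⟩
    exact Pool.Agent.Helper162.Arc.pa_hi ⟨hC1, hC2⟩ ⟨A, B, hA, hB, hAB ▸ subset_union_left,
      hAB ▸ subset_union_right, hAK, hBK, hAB⟩
  have h1 : ∀ (Y : Type v) [TopologicalSpace Y] [T2Space Y]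
      (p q : Pool.Agent.Helper162.Arc.PA × Y), Joined p q → p.1 = q.1 := by
    rintro Y _ _ p q ⟨K, hK, hd, hp, hq⟩
    by_contra hne
    refine hi (Prod.fst '' K) ⟨hK.1.image continuous_fst,
      hK.2.image _ continuous_fst.continuousOn⟩ (image_decomposable continuous_fst hK hd ?_)
    exact ⟨p.1, ⟨p, hp, rfl⟩, q.1, ⟨q, hq, rfl⟩, hne⟩
  have h2 : ∀ (p q : Pool.Agent.Helper162.Arc.PA × Pool.Agent.Helper162.Arc.PA),
      Joined p q → p = q := by
    rintro p q ⟨K, hK, hd, hp, hq⟩
    apply Prod.ext
    · by_contra hne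
      refine hi (Prod.fst '' K) ⟨hK.1.image continuous_fst,
        hK.2.image _ continuous_fst.continuousOn⟩ (image_decomposable continuous_fst hK hd ?_)
      exact ⟨p.1, ⟨p, hp, rfl⟩, q.1, ⟨q, hq, rfl⟩, hne⟩
    · by_contra hne
      refine hi (Prod.snd '' K) ⟨hK.1.image continuous_snd,
        hK.2.image _ continuous_snd.continuousOn⟩ (image_decomposable continuous_snd hK hd ?_)
      exact ⟨p.2, ⟨p, hp, rfl⟩, q.2, ⟨q, hq, rfl⟩, hne⟩
  obtain ⟨a, b, hab⟩ := exists_pair_ne Pool.Agent.Helper162.Arc.PA
  refine ⟨fun Y _ _ => ⟨h1 Y, ?_⟩, fun p q hne h => hne (h2 p q h), fun h => ?_⟩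
  · rintro ⟨y⟩ h
    exact hab (h1 Y (a, y) (b, y) (h _ _))
  · have := h2 (a, a) (b, b) (h _ _)
    exact hab (congrArg Prod.fst this)

end Pool.Agent.Results.MP_3d59a4_gt.NotLambdaConnected
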